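import Mathlib

set_option autoImplicit false

namespace Pool.Agent.Results.MP_176cbc_co.PlanarLowerBound

/-- Combinatorial data of a diagram whose spine lies on the vertical axis. -/
structure Book where
  N : ℕ
  seg : ℕ → ℕ
  A : Type
  B : Type
  loA : A → ℕ
  hiA : A → ℕ
  loB : B → ℕ
  hiB : B → ℕ
  seg_mono : Monotone seg
  loA_lt : ∀ x, loA x < hiA x
  hiA_lt : ∀ x, hiA x < N
  loB_lt : ∀ y, loB y < hiB y
  hiB_lt : ∀ y, hiB y < N
  lamA : ∀ x x', x ≠ x' → hiA x < loA x' ∨ hiA x' < loA x ∨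
    (loA x < loA x' ∧ hiA x' < hiA x) ∨ (loA x' < loA x ∧ hiA x < hiA x')
  lamB : ∀ y y', y ≠ y' → hiB y < loB y' ∨ hiB y' < loB y ∨
    (loB y < loB y' ∧ hiB y' < hiB y) ∨ (loB y' < loB y ∧ hiB y < hiB y')

/-- The points of the poset: minimal points, spine points, maximal points. -/
inductive Pt (K : Book) : Type
  | a : K.A → Pt K
  | v : Fin K.N → Pt K
  | b : K.B → Pt K

/-- Reachability along the spine. -/
def Rc (K : Book) (i j : ℕ) : Prop := i ≤ j ∧ K.seg i = K.seg j

theorem Rc.trans {K : Book} {i j k : ℕ} (h : Rc K i j) (h' : Rc K j k) : Rc K i k :=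
  ⟨h.1.trans h'.1, h.2.trans h'.2⟩

theorem Rc.refl (K : Book) (i : ℕ) : Rc K i i := ⟨le_rfl, rfl⟩

/-- The order. -/
def ple (K : Book) : Pt K → Pt K → Prop
  | .a x, .a x' => x = x'
  | .a x, .v j => Rc K (K.loA x) j ∨ Rc K (K.hiA x) j
  | .a x, .b y => Rc K (K.loA x) (K.loB y) ∨ Rc K (K.loA x) (K.hiB y) ∨
      Rc K (K.hiA x) (K.loB y) ∨ Rc K (K.hiA x) (K.hiB y)
  | .v _, .a _ => False
  | .v i, .v j => Rc K i j
  | .v i, .b y => Rc K i (K.loB y) ∨ Rc K i (K.hiB y)
  | .b _, .a _ => False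
  | .b _, .v _ => False
  | .b y, .b y' => y = y'

theorem ple_refl (K : Book) (p : Pt K) : ple K p p := by
  cases p with
  | a x => rfl
  | v i => exact Rc.refl K i
  | b y => rfl

theorem ple_trans (K : Book) (p q r : Pt K) (h : ple K p q) (h' : ple K q r) : ple K p r := by
  cases p with
  | a x =>
    cases q with
    | a x' =>
      have : x = x' := h
      subst this; exact h'
    | v j =>
      cases r with
      | a x' => exact h'.elim
      | v k =>
        rcases h with h | h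
        · exact Or.inl (h.trans h')
        · exact Or.inr (h.trans h')
      | b y =>
        rcases h with h | h <;> rcases h' with h' | h'
        · exact Or.inl (h.trans h')
        · exact Or.inr (Or.inl (h.trans h'))
        · exact Or.inr (Or.inr (Or.inl (h.trans h')))
        · exact Or.inr (Or.inr (Or.inr (h.trans h')))
    | b y =>
      cases r with
      | a x' => exact h'.elim
      | v k => exact h'.elim
      | b y' =>
        have : y = y' := h'
        subst this; exact h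
  | v i =>
    cases q with
    | a x' => exact h.elim
    | v j =>
      cases r with
      | a x' => exact h'.elim
      | v k => exact Rc.trans h h'
      | b y =>
        rcases h' with h' | h'
        · exact Or.inl (Rc.trans h h')
        · exact Or.inr (Rc.trans h h')
    | b y =>
      cases r with
      | a x' => exact h'.elim
      | v k => exact h'.elim
      | b y' =>
        have : y = y' := h'
        subst this; exact h
  | b y =>
    cases q with
    | a x' => exact h.elim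
    | v j => exact h.elim
    | b y' =>
      have : y = y' := h
      subst this; exact h'

theorem ple_antisymm (K : Book) (p q : Pt K) (h : ple K p q) (h' : ple K q p) : p = q := by
  cases p with
  | a x =>
    cases q with
    | a x' => have : x = x' := h
              rw [this]
    | v j => exact h'.elim
    | b y => exact h'.elim
  | v i =>
    cases q with
    | a x' => exact h.elim
    | v j =>
      have h1 : (i : ℕ) ≤ j := h.1
      have h2 : (j : ℕ) ≤ i := h'.1
      rw [Fin.ext (le_antisymm h1 h2)]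
    | b y => exact h'.elim
  | b y =>
    cases q with
    | a x' => exact h.elim
    | v j => exact h.elim
    | b y' => have : y = y' := h
              rw [this]

instance (K : Book) : PartialOrder (Pt K) where
  le := ple K
  le_refl := ple_refl K
  le_trans := ple_trans K
  le_antisymm := ple_antisymm K

theorem le_def {K : Book} (p q : Pt K) : p ≤ q ↔ ple K p q := Iff.rfl

/-- The equivalence with a sum type. -/
def ptEquiv (K : Book) : K.A ⊕ Fin K.N ⊕ K.B ≃ Pt K where
  toFun
    | Sum.inl x => .a x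
    | Sum.inr (Sum.inl i) => .v i
    | Sum.inr (Sum.inr y) => .b y
  invFun
    | .a x => Sum.inl x
    | .v i => Sum.inr (Sum.inl i)
    | .b y => Sum.inr (Sum.inr y)
  left_inv := by rintro (x | i | y) <;> rfl
  right_inv := by rintro (x | i | y) <;> rfl

/-- Position in the plane. -/
noncomputable def pos (K : Book) : Pt K → ℝ × ℝ
  | .a x => (-(2 * ((K.hiA x : ℝ) - K.loA x) + 1), 2 * (K.loA x : ℝ) - 1)
  | .v i => (0, 2 * ((i : ℕ) : ℝ))
  | .b y => (2 * ((K.hiB y : ℝ) - K.loB y) + 1, 2 * (K.hiB y : ℝ) + 1)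

/-- The edges of the diagram. -/
inductive Edge (K : Book) : Pt K → Pt K → Prop
  | alo (x : K.A) (j : Fin K.N) (h : (j : ℕ) = K.loA x) : Edge K (.a x) (.v j)
  | ahi (x : K.A) (j : Fin K.N) (h : (j : ℕ) = K.hiA x) : Edge K (.a x) (.v j)
  | vv (i j : Fin K.N) (h : (j : ℕ) = i + 1) : Edge K (.v i) (.v j)
  | lob (y : K.B) (j : Fin K.N) (h : (j : ℕ) = K.loB y) : Edge K (.v j) (.b y)
  | hib (y : K.B) (j : Fin K.N) (h : (j : ℕ) = K.hiB y) : Edge K (.v j) (.b y)

theorem covBy_edge {K : Book} {p q : Pt K} (h : p ⋖ q) : Edge K p q := by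
  obtain ⟨hlt, hno⟩ := h
  have hle : ple K p q := hlt.le
  have hne : p ≠ q := hlt.ne
  cases p with
  | a x =>
    cases q with
    | a x' =>
      have : x = x' := hle
      exact absurd (by rw [this]) hne
    | v j =>
      rcases hle with h | h
      · have hlo : K.loA x < K.N := (K.loA_lt x).trans (K.hiA_lt x)
        by_cases hj : (j : ℕ) = K.loA x
        · exact Edge.alo x j hj
        · exfalso
          refine hno (c := .v ⟨K.loA x, hlo⟩) (lt_of_le_of_ne ?_ ?_) (lt_of_le_of_ne ?_ ?_)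
          · exact Or.inl (Rc.refl K _)
          · intro h; cases h
          · exact h
          · intro h'
            injection h' with h'
            exact hj (by rw [← h'])
      · have hhi : K.hiA x < K.N := K.hiA_lt x
        by_cases hj : (j : ℕ) = K.hiA x
        · exact Edge.ahi x j hj
        · exfalso
          refine hno (c := .v ⟨K.hiA x, hhi⟩) (lt_of_le_of_ne ?_ ?_) (lt_of_le_of_ne ?_ ?_)
          · exact Or.inr (Rc.refl K _)
          · intro h; cases h
          · exact h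
          · intro h'
            injection h' with h'
            exact hj (by rw [← h'])
    | b y =>
      exfalso
      have key : ∀ (i : ℕ) (hi : i < K.N), ple K (.a x) (.v ⟨i, hi⟩) →
          ple K (.v ⟨i, hi⟩) (.b y) → False := by
        intro i hi h1 h2
        refine hno (c := .v ⟨i, hi⟩) (lt_of_le_of_ne h1 ?_) (lt_of_le_of_ne h2 ?_)
        · intro h; cases h
        · intro h; cases h
      have hlo : K.loA x < K.N := (K.loA_lt x).trans (K.hiA_lt x)
      have hhi : K.hiA x < K.N := K.hiA_lt x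
      rcases hle with h | h | h | h
      · exact key _ hlo (Or.inl (Rc.refl K _)) (Or.inl h)
      · exact key _ hlo (Or.inl (Rc.refl K _)) (Or.inr h)
      · exact key _ hhi (Or.inr (Rc.refl K _)) (Or.inl h)
      · exact key _ hhi (Or.inr (Rc.refl K _)) (Or.inr h)
  | v i =>
    cases q with
    | a x' => exact hle.elim
    | v j =>
      have hij : Rc K i j := hle
      have hne' : (i : ℕ) ≠ j := fun h => hne (by rw [Fin.ext h])
      have hlt' : (i : ℕ) < j := lt_of_le_of_ne hij.1 hne'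
      by_cases hj : (j : ℕ) = i + 1
      · exact Edge.vv i j hj
      · exfalso
        have h1 : (i : ℕ) + 1 < j := by omega
        have hN : (i : ℕ) + 1 < K.N := h1.trans j.2
        have hs1 : K.seg i ≤ K.seg (i + 1) := K.seg_mono (by omega)
        have hs2 : K.seg (i + 1) ≤ K.seg j := K.seg_mono (by omega)
        have hs : K.seg i = K.seg j := hij.2
        refine hno (c := .v ⟨i + 1, hN⟩) (lt_of_le_of_ne ?_ ?_) (lt_of_le_of_ne ?_ ?_)
        · exact ⟨by simp, by simp only; omega⟩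
        · intro h'
          injection h' with h'
          have := congrArg Fin.val h'
          simp at this
        · exact ⟨by simp only; omega, by simp only; omega⟩
        · intro h'
          injection h' with h'
          have := congrArg Fin.val h'
          simp only at this
          omega
    | b y =>
      have hlo : K.loB y < K.N := (K.loB_lt y).trans (K.hiB_lt y)
      have hhi : K.hiB y < K.N := K.hiB_lt y
      rcases hle with h | h
      · by_cases hj : (i : ℕ) = K.loB y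
        · exact Edge.lob y i hj
        · exfalso
          refine hno (c := .v ⟨K.loB y, hlo⟩) (lt_of_le_of_ne ?_ ?_) (lt_of_le_of_ne ?_ ?_)
          · exact h
          · intro h'
            injection h' with h'
            exact hj (by rw [h'])
          · exact Or.inl (Rc.refl K _)
          · intro h; cases h
      · by_cases hj : (i : ℕ) = K.hiB y
        · exact Edge.hib y i hj
        · exfalso
          refine hno (c := .v ⟨K.hiB y, hhi⟩) (lt_of_le_of_ne ?_ ?_) (lt_of_le_of_ne ?_ ?_)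
          · exact h
          · intro h'
            injection h' with h'
            exact hj (by rw [h'])
          · exact Or.inr (Rc.refl K _)
          · intro h; cases h
  | b y =>
    cases q with
    | a x' => exact hle.elim
    | v j => exact hle.elim
    | b y' =>
      have : y = y' := hle
      exact absurd (by rw [this]) hne

/-- Description of the points on the edges. -/
inductive EP (K : Book) : Pt K → Pt K → ℝ × ℝ → Prop
  | left (x : K.A) (j : Fin K.N) (e : ℕ) (c u : ℝ) (hj : (j : ℕ) = e)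
      (he : (e = K.loA x ∧ c = 1) ∨
        (e = K.hiA x ∧ c = 2 * ((K.hiA x : ℝ) - K.loA x) + 1))
      (hu0 : 0 ≤ u) (hu1 : u ≤ 1) :
      EP K (.a x) (.v j) (-((2 * ((K.hiA x : ℝ) - K.loA x) + 1) * u), 2 * (e : ℝ) - c * u)
  | mid (i j : Fin K.N) (t : ℝ) (h : (j : ℕ) = i + 1) (ht0 : 0 ≤ t) (ht1 : t ≤ 1) :
      EP K (.v i) (.v j) (0, 2 * ((i : ℕ) : ℝ) + 2 * t)
  | right (y : K.B) (j : Fin K.N) (e : ℕ) (c u : ℝ) (hj : (j : ℕ) = e)
      (he : (e = K.hiB y ∧ c = 1) ∨
        (e = K.loB y ∧ c = 2 * ((K.hiB y : ℝ) - K.loB y) + 1))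
      (hu0 : 0 ≤ u) (hu1 : u ≤ 1) :
      EP K (.v j) (.b y) ((2 * ((K.hiB y : ℝ) - K.loB y) + 1) * u, 2 * (e : ℝ) + c * u)

theorem edge_point {K : Book} {p q : Pt K} (h : Edge K p q) {z : ℝ × ℝ}
    (hz : z ∈ segment ℝ (pos K p) (pos K q)) : EP K p q z := by
  rw [segment_eq_image] at hz
  obtain ⟨t, ⟨ht0, ht1⟩, rfl⟩ := hz
  cases h with
  | alo x j h =>
    have := EP.left (K := K) x j (K.loA x) 1 (1 - t) h (Or.inl ⟨rfl, rfl⟩) (by linarith)
      (by linarith)
    convert this using 1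
    simp only [pos, Prod.smul_mk, Prod.mk_add_mk, smul_eq_mul, Prod.mk.injEq, h]
    constructor <;> ring
  | ahi x j h =>
    have := EP.left (K := K) x j (K.hiA x) _ (1 - t) h (Or.inr ⟨rfl, rfl⟩) (by linarith)
      (by linarith)
    convert this using 1
    simp only [pos, Prod.smul_mk, Prod.mk_add_mk, smul_eq_mul, Prod.mk.injEq, h]
    constructor <;> ring
  | vv i j h =>
    have := EP.mid (K := K) i j t h ht0 ht1
    convert this using 1
    simp only [pos, Prod.smul_mk, Prod.mk_add_mk, smul_eq_mul, Prod.mk.injEq, h]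
    push_cast
    constructor <;> ring
  | lob y j h =>
    have := EP.right (K := K) y j (K.loB y) _ t h (Or.inr ⟨rfl, rfl⟩) ht0 ht1
    convert this using 1
    simp only [pos, Prod.smul_mk, Prod.mk_add_mk, smul_eq_mul, Prod.mk.injEq, h]
    constructor <;> ring
  | hib y j h =>
    have := EP.right (K := K) y j (K.hiB y) 1 t h (Or.inl ⟨rfl, rfl⟩) ht0 ht1
    convert this using 1
    simp only [pos, Prod.smul_mk, Prod.mk_add_mk, smul_eq_mul, Prod.mk.injEq, h]
    constructor <;> ring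

theorem pos_inj (K : Book) : Function.Injective (pos K) := by
  intro p q h
  cases p with
  | a x =>
    have hx : (K.loA x : ℝ) + 1 ≤ K.hiA x := by exact_mod_cast K.loA_lt x
    cases q with
    | a x' =>
      by_contra hne
      have hne' : x ≠ x' := fun h => hne (by rw [h])
      have h2 := (Prod.ext_iff.1 h).2
      simp only [pos] at h2
      have h3 : (K.loA x : ℝ) = K.loA x' := by linarith
      have h4 : K.loA x = K.loA x' := by exact_mod_cast h3
      have h5 := K.loA_lt x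
      have h6 := K.loA_lt x'
      rcases K.lamA x x' hne' with h | h | h | h <;> omega
    | v j =>
      have h1 := (Prod.ext_iff.1 h).1
      simp only [pos] at h1
      linarith
    | b y =>
      have hy : (K.loB y : ℝ) + 1 ≤ K.hiB y := by exact_mod_cast K.loB_lt y
      have h1 := (Prod.ext_iff.1 h).1
      simp only [pos] at h1
      linarith
  | v i =>
    cases q with
    | a x' =>
      have hx : (K.loA x' : ℝ) + 1 ≤ K.hiA x' := by exact_mod_cast K.loA_lt x'
      have h1 := (Prod.ext_iff.1 h).1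
      simp only [pos] at h1
      linarith
    | v j =>
      have h2 := (Prod.ext_iff.1 h).2
      simp only [pos] at h2
      have h3 : ((i : ℕ) : ℝ) = ((j : ℕ) : ℝ) := by linarith
      have h4 : (i : ℕ) = j := by exact_mod_cast h3
      rw [Fin.ext h4]
    | b y =>
      have hy : (K.loB y : ℝ) + 1 ≤ K.hiB y := by exact_mod_cast K.loB_lt y
      have h1 := (Prod.ext_iff.1 h).1
      simp only [pos] at h1
      linarith
  | b y =>
    have hy : (K.loB y : ℝ) + 1 ≤ K.hiB y := by exact_mod_cast K.loB_lt y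
    cases q with
    | a x' =>
      have hx : (K.loA x' : ℝ) + 1 ≤ K.hiA x' := by exact_mod_cast K.loA_lt x'
      have h1 := (Prod.ext_iff.1 h).1
      simp only [pos] at h1
      linarith
    | v j =>
      have h1 := (Prod.ext_iff.1 h).1
      simp only [pos] at h1
      linarith
    | b y' =>
      by_contra hne
      have hne' : y ≠ y' := fun h => hne (by rw [h])
      have h2 := (Prod.ext_iff.1 h).2
      simp only [pos] at h2
      have h3 : (K.hiB y : ℝ) = K.hiB y' := by linarith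
      have h4 : K.hiB y = K.hiB y' := by exact_mod_cast h3
      have h5 := K.loB_lt y
      have h6 := K.loB_lt y'
      rcases K.lamB y y' hne' with h | h | h | h <;> omega

/-- Two edges at different vertices on the same side do not meet. -/
theorem side_disjoint {lo hi lo' hi' e e' c c' u u' : ℝ} (h : lo + 1 ≤ hi) (h' : lo' + 1 ≤ hi')
    (he : (e = lo ∧ c = 1) ∨ (e = hi ∧ c = 2 * (hi - lo) + 1))
    (he' : (e' = lo' ∧ c' = 1) ∨ (e' = hi' ∧ c' = 2 * (hi' - lo') + 1))
    (lam : hi + 1 ≤ lo' ∨ hi' + 1 ≤ lo ∨ (lo + 1 ≤ lo' ∧ hi' + 1 ≤ hi) ∨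
      (lo' + 1 ≤ lo ∧ hi + 1 ≤ hi'))
    (hu0 : 0 ≤ u) (hu1 : u ≤ 1) (hu0' : 0 ≤ u') (hu1' : u' ≤ 1)
    (hX : (2 * (hi - lo) + 1) * u = (2 * (hi' - lo') + 1) * u')
    (hY : 2 * e - c * u = 2 * e' - c' * u') : False := by
  have hX1 : (2 * (hi - lo) + 1) * u ≤ 2 * (hi - lo) + 1 := by nlinarith
  have hX2 : (2 * (hi' - lo') + 1) * u' ≤ 2 * (hi' - lo') + 1 := by nlinarith
  have hX3 : 0 ≤ (2 * (hi - lo) + 1) * u := by
    apply mul_nonneg <;> linarith
  rcases he with ⟨rfl, rfl⟩ | ⟨rfl, rfl⟩ <;> rcases he' with ⟨rfl, rfl⟩ | ⟨rfl, rfl⟩ <;>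
    rcases lam with l | l | ⟨l, l'⟩ | ⟨l, l'⟩ <;> linarith

/-- The two edges at one vertex meet only there. -/
theorem side_same {lo hi u u' : ℝ} (h : lo + 1 ≤ hi)
    (hX : (2 * (hi - lo) + 1) * u = (2 * (hi - lo) + 1) * u')
    (hY : 2 * lo - 1 * u = 2 * hi - (2 * (hi - lo) + 1) * u') :
    u = 1 ∧ u' = 1 := by
  have hw : (2 * (hi - lo) + 1) ≠ 0 := by
    intro h; linarith
  have huu : u = u' := mul_left_cancel₀ hw hX
  subst huu
  have h2 : (2 * (hi - lo)) * (u - 1) = 0 := by linarith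
  rcases mul_eq_zero.1 h2 with h3 | h3
  · exfalso; linarith
  · constructor <;> linarith

theorem ltA {K : Book} (x : K.A) : (K.loA x : ℝ) + 1 ≤ K.hiA x := by
  exact_mod_cast K.loA_lt x

theorem ltB {K : Book} (y : K.B) : -(K.hiB y : ℝ) + 1 ≤ -(K.loB y : ℝ) := by
  have : (K.loB y : ℝ) + 1 ≤ K.hiB y := by exact_mod_cast K.loB_lt y
  linarith

theorem lamA' {K : Book} {x x' : K.A} (h : x ≠ x') :
    (K.hiA x : ℝ) + 1 ≤ K.loA x' ∨ (K.hiA x' : ℝ) + 1 ≤ K.loA x ∨
    ((K.loA x : ℝ) + 1 ≤ K.loA x' ∧ (K.hiA x' : ℝ) + 1 ≤ K.hiA x) ∨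
    ((K.loA x' : ℝ) + 1 ≤ K.loA x ∧ (K.hiA x : ℝ) + 1 ≤ K.hiA x') := by
  exact_mod_cast K.lamA x x' h

theorem lamB' {K : Book} {y y' : K.B} (h : y ≠ y') :
    -(K.loB y : ℝ) + 1 ≤ -(K.hiB y' : ℝ) ∨ -(K.loB y' : ℝ) + 1 ≤ -(K.hiB y : ℝ) ∨
    (-(K.hiB y : ℝ) + 1 ≤ -(K.hiB y' : ℝ) ∧ -(K.loB y' : ℝ) + 1 ≤ -(K.loB y : ℝ)) ∨
    (-(K.hiB y' : ℝ) + 1 ≤ -(K.hiB y : ℝ) ∧ -(K.loB y : ℝ) + 1 ≤ -(K.loB y' : ℝ)) := by
  have k : (K.hiB y : ℝ) + 1 ≤ K.loB y' ∨ (K.hiB y' : ℝ) + 1 ≤ K.loB y ∨
    ((K.loB y : ℝ) + 1 ≤ K.loB y' ∧ (K.hiB y' : ℝ) + 1 ≤ K.hiB y) ∨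
    ((K.loB y' : ℝ) + 1 ≤ K.loB y ∧ (K.hiB y : ℝ) + 1 ≤ K.hiB y') := by
    exact_mod_cast K.lamB y y' h
  rcases k with k | k | ⟨k, k'⟩ | ⟨k, k'⟩
  · right; left; linarith
  · left; linarith
  · right; right; left; constructor <;> linarith
  · right; right; right; constructor <;> linarith

theorem EP.elim {K : Book} {p q : Pt K} {z : ℝ × ℝ} (h : EP K p q z) :
    (∃ (x : K.A) (j : Fin K.N) (e c u : ℝ), p = .a x ∧ q = .v j ∧ ((j : ℕ) : ℝ) = e ∧
      ((e = K.loA x ∧ c = 1) ∨
        (e = K.hiA x ∧ c = 2 * ((K.hiA x : ℝ) - K.loA x) + 1)) ∧ 0 ≤ u ∧ u ≤ 1 ∧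
      -z.1 = (2 * ((K.hiA x : ℝ) - K.loA x) + 1) * u ∧ z.2 = 2 * e - c * u) ∨
    (∃ (i j : Fin K.N) (t : ℝ), p = .v i ∧ q = .v j ∧ (j : ℕ) = i + 1 ∧ 0 ≤ t ∧ t ≤ 1 ∧
      z.1 = 0 ∧ z.2 = 2 * ((i : ℕ) : ℝ) + 2 * t) ∨
    (∃ (y : K.B) (j : Fin K.N) (e c u : ℝ), p = .v j ∧ q = .b y ∧ -((j : ℕ) : ℝ) = e ∧
      ((e = -(K.hiB y : ℝ) ∧ c = 1) ∨
        (e = -(K.loB y : ℝ) ∧ c = 2 * (-(K.loB y : ℝ) - -(K.hiB y : ℝ)) + 1)) ∧ 0 ≤ u ∧ u ≤ 1 ∧
      z.1 = (2 * (-(K.loB y : ℝ) - -(K.hiB y : ℝ)) + 1) * u ∧ -z.2 = 2 * e - c * u) := by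
  cases h with
  | left x j e c u hj he hu0 hu1 =>
    refine Or.inl ⟨x, j, e, c, u, rfl, rfl, by rw [hj], ?_, hu0, hu1, ?_, rfl⟩
    · rcases he with ⟨rfl, rfl⟩ | ⟨rfl, rfl⟩
      · exact Or.inl ⟨rfl, rfl⟩
      · exact Or.inr ⟨rfl, rfl⟩
    · simp
  | mid i j t h ht0 ht1 =>
    exact Or.inr (Or.inl ⟨i, j, t, rfl, rfl, h, ht0, ht1, rfl, rfl⟩)
  | right y j e c u hj he hu0 hu1 =>
    refine Or.inr (Or.inr ⟨y, j, -(e : ℝ), c, u, rfl, rfl, by rw [hj], ?_, hu0, hu1, ?_, ?_⟩)
    · rcases he with ⟨rfl, rfl⟩ | ⟨rfl, rfl⟩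
      · exact Or.inl ⟨rfl, rfl⟩
      · exact Or.inr ⟨rfl, by ring⟩
    · simp only; ring
    · simp only; ring

theorem wA_pos {K : Book} (x : K.A) : (0 : ℝ) < 2 * ((K.hiA x : ℝ) - K.loA x) + 1 := by
  have := ltA x
  linarith

theorem wB_pos {K : Book} (y : K.B) :
    (0 : ℝ) < 2 * (-(K.loB y : ℝ) - -(K.hiB y : ℝ)) + 1 := by
  have := ltB y
  linarith

theorem pos_up {K : Book} {p q : Pt K} (h : p ⋖ q) : (pos K p).2 < (pos K q).2 := by
  have hE := covBy_edge h
  clear h
  cases hE with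
  | alo x j h => simp only [pos, h]; linarith
  | ahi x j h =>
    have := wA_pos x
    simp only [pos, h]; linarith
  | vv i j h => simp only [pos, h]; push_cast; linarith
  | lob y j h =>
    have := wB_pos y
    simp only [pos, h]; linarith
  | hib y j h => simp only [pos, h]; linarith

theorem zero_of_mul {w u : ℝ} (hw : 0 < w) (h : w * u = 0) : u = 0 := by
  rcases mul_eq_zero.1 h with h | h
  · exact absurd h hw.ne'
  · exact h

theorem vertex_edge {K : Book} {p q r : Pt K} (h : p ⋖ q)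
    (hz : pos K r ∈ segment ℝ (pos K p) (pos K q)) : r = p ∨ r = q := by
  rcases (edge_point (covBy_edge h) hz).elim with
    ⟨x, j, e, c, u, rfl, rfl, hj, he, hu0, hu1, h1, h2⟩ |
    ⟨i, j, t, rfl, rfl, hj, ht0, ht1, h1, h2⟩ |
    ⟨y, j, e, c, u, rfl, rfl, hj, he, hu0, hu1, h1, h2⟩
  · have hw := wA_pos x
    cases r with
    | a x' =>
      left
      by_contra hne
      have hne' : x' ≠ x := fun h => hne (by rw [h])
      simp only [pos] at h1 h2
      exact side_disjoint (u := u) (u' := 1) (e' := K.loA x') (c' := 1)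
        (ltA x) (ltA x') he (Or.inl ⟨rfl, rfl⟩) (lamA' hne'.symm) hu0 hu1
        zero_le_one le_rfl (by linarith) (by linarith)
    | v k =>
      right
      simp only [pos] at h1 h2
      have hu : u = 0 := zero_of_mul hw (by linarith)
      rw [hu] at h2
      have h5 : ((k : ℕ) : ℝ) = ((j : ℕ) : ℝ) := by linarith
      have h6 : (k : ℕ) = j := by exact_mod_cast h5
      rw [Fin.ext h6]
    | b y =>
      exfalso
      have hwy := wB_pos y
      simp only [pos] at h1 h2
      have : 0 ≤ (2 * ((K.hiA x : ℝ) - K.loA x) + 1) * u := mul_nonneg hw.le hu0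
      linarith
  · cases r with
    | a x' =>
      exfalso
      have hwx := wA_pos x'
      simp only [pos] at h1 h2
      linarith
    | v k =>
      simp only [pos] at h1 h2
      have h3 : ((i : ℕ) : ℝ) ≤ ((k : ℕ) : ℝ) := by linarith
      have h4 : ((k : ℕ) : ℝ) ≤ ((i : ℕ) : ℝ) + 1 := by linarith
      have h5 : (i : ℕ) ≤ k := by exact_mod_cast h3
      have h6 : (k : ℕ) ≤ i + 1 := by exact_mod_cast h4
      by_cases h7 : (k : ℕ) = i
      · left; rw [Fin.ext h7]
      · right
        have h8 : (k : ℕ) = j := by omega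
        rw [Fin.ext h8]
    | b y =>
      exfalso
      have hwy := wB_pos y
      simp only [pos] at h1 h2
      linarith
  · have hw := wB_pos y
    cases r with
    | a x =>
      exfalso
      have hwx := wA_pos x
      simp only [pos] at h1 h2
      have : 0 ≤ (2 * (-(K.loB y : ℝ) - -(K.hiB y : ℝ)) + 1) * u := mul_nonneg hw.le hu0
      linarith
    | v k =>
      left
      simp only [pos] at h1 h2
      have hu : u = 0 := zero_of_mul hw (by linarith)
      rw [hu] at h2
      have h5 : ((k : ℕ) : ℝ) = ((j : ℕ) : ℝ) := by linarith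
      have h6 : (k : ℕ) = j := by exact_mod_cast h5
      rw [Fin.ext h6]
    | b y' =>
      right
      by_contra hne
      have hne' : y' ≠ y := fun h => hne (by rw [h])
      simp only [pos] at h1 h2
      exact side_disjoint (u := u) (u' := 1) (e' := -(K.hiB y' : ℝ)) (c' := 1)
        (ltB y) (ltB y') he (Or.inl ⟨rfl, rfl⟩) (lamB' hne'.symm) hu0 hu1
        zero_le_one le_rfl (by linarith) (by linarith)

theorem eq_of_data {z w : ℝ × ℝ} (h1 : z.1 = w.1) (h2 : z.2 = w.2) : z = w := Prod.ext h1 h2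

/-- The symmetric form of the crossing condition. -/
def Good (K : Book) (z : ℝ × ℝ) (p q p' q' : Pt K) : Prop :=
  (z = pos K p ∨ z = pos K q) ∧ (z = pos K p' ∨ z = pos K q')

theorem edge_edge {K : Book} {p q p' q' : Pt K} (h : p ⋖ q) (h' : p' ⋖ q')
    (hne : p ≠ p' ∨ q ≠ q') {z : ℝ × ℝ} (hz : z ∈ segment ℝ (pos K p) (pos K q))
    (hz' : z ∈ segment ℝ (pos K p') (pos K q')) : Good K z p q p' q' := by
  rcases (edge_point (covBy_edge h) hz).elim with
    ⟨x, j, e, c, u, rfl, rfl, hj, he, hu0, hu1, h1, h2⟩ |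
    ⟨i, j, t, rfl, rfl, hj, ht0, ht1, h1, h2⟩ |
    ⟨y, j, e, c, u, rfl, rfl, hj, he, hu0, hu1, h1, h2⟩ <;>
  rcases (edge_point (covBy_edge h') hz').elim with
    ⟨x', j', e', c', u', rfl, rfl, hj', he', hu0', hu1', h1', h2'⟩ |
    ⟨i', j', t', rfl, rfl, hj', ht0', ht1', h1', h2'⟩ |
    ⟨y', j', e', c', u', rfl, rfl, hj', he', hu0', hu1', h1', h2'⟩
  · -- left, left
    by_cases hx : x = x'
    · subst hx
      have hjj : j ≠ j' := by
        rcases hne with hne | hne
        · exact absurd rfl hne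
        · exact fun h => hne (by rw [h])
      have hee : e ≠ e' := by
        intro h
        apply hjj
        apply Fin.ext
        have : ((j : ℕ) : ℝ) = ((j' : ℕ) : ℝ) := by rw [hj, hj', h]
        exact_mod_cast this
      have huu : u = 1 ∧ u' = 1 := by
        rcases he with ⟨he, hc⟩ | ⟨he, hc⟩ <;> rcases he' with ⟨he', hc'⟩ | ⟨he', hc'⟩
        · exact absurd (he.trans he'.symm) hee
        · rw [he, hc] at h2
          rw [he', hc'] at h2'
          exact side_same (ltA x) (h1.symm.trans h1') (h2.symm.trans h2')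
        · rw [he, hc] at h2
          rw [he', hc'] at h2'
          exact (side_same (ltA x) (h1'.symm.trans h1) (h2'.symm.trans h2)).symm
        · exact absurd (he.trans he'.symm) hee
      have hz1 : z = pos K (.a x) := by
        refine eq_of_data ?_ ?_
        · rw [huu.1] at h1
          simp only [pos]; linarith
        · rw [huu.1] at h2
          simp only [pos]
          rcases he with ⟨he, hc⟩ | ⟨he, hc⟩
          · rw [he, hc] at h2; linarith
          · rw [he, hc] at h2; linarith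
      exact ⟨Or.inl hz1, Or.inl hz1⟩
    · exact (side_disjoint (ltA x) (ltA x') he he' (lamA' hx) hu0 hu1 hu0' hu1'
        (h1.symm.trans h1') (h2.symm.trans h2')).elim
  · -- left, mid
    have hu : u = 0 := zero_of_mul (wA_pos x) (by linarith)
    rw [hu] at h2
    have hz1 : z = pos K (.v j) := eq_of_data (by simp only [pos]; exact h1')
      (by simp only [pos]; linarith)
    have h3 : ((i' : ℕ) : ℝ) ≤ ((j : ℕ) : ℝ) := by linarith
    have h4 : ((j : ℕ) : ℝ) ≤ ((i' : ℕ) : ℝ) + 1 := by linarith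
    have h5 : (i' : ℕ) ≤ j := by exact_mod_cast h3
    have h6 : (j : ℕ) ≤ i' + 1 := by exact_mod_cast h4
    refine ⟨Or.inr hz1, ?_⟩
    by_cases h7 : (j : ℕ) = i'
    · left; rw [hz1, Fin.ext h7]
    · right
      have h8 : (j : ℕ) = j' := by omega
      rw [hz1, Fin.ext h8]
  · -- left, right
    have hw := wA_pos x
    have hw' := wB_pos y'
    have m1 : 0 ≤ (2 * ((K.hiA x : ℝ) - K.loA x) + 1) * u := mul_nonneg hw.le hu0
    have m2 : 0 ≤ (2 * (-(K.loB y' : ℝ) - -(K.hiB y' : ℝ)) + 1) * u' := mul_nonneg hw'.le hu0'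
    have hu : u = 0 := zero_of_mul hw (by linarith)
    have hu' : u' = 0 := zero_of_mul hw' (by linarith)
    rw [hu] at h1 h2
    rw [hu'] at h1' h2'
    exact ⟨Or.inr (eq_of_data (by simp only [pos]; linarith) (by simp only [pos]; linarith)),
      Or.inl (eq_of_data (by simp only [pos]; linarith) (by simp only [pos]; linarith))⟩
  · -- mid, left
    have hu : u' = 0 := zero_of_mul (wA_pos x') (by linarith)
    rw [hu] at h2'
    have hz1 : z = pos K (.v j') := eq_of_data (by simp only [pos]; exact h1)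
      (by simp only [pos]; linarith)
    have h3 : ((i : ℕ) : ℝ) ≤ ((j' : ℕ) : ℝ) := by linarith
    have h4 : ((j' : ℕ) : ℝ) ≤ ((i : ℕ) : ℝ) + 1 := by linarith
    have h5 : (i : ℕ) ≤ j' := by exact_mod_cast h3
    have h6 : (j' : ℕ) ≤ i + 1 := by exact_mod_cast h4
    refine ⟨?_, Or.inr hz1⟩
    by_cases h7 : (j' : ℕ) = i
    · left; rw [hz1, Fin.ext h7]
    · right
      have h8 : (j' : ℕ) = j := by omega
      rw [hz1, Fin.ext h8]
  · -- mid, mid
    have hii : (i : ℕ) ≠ i' := by
      intro h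
      have hij : (j : ℕ) = j' := by omega
      rcases hne with hne | hne
      · exact hne (by rw [Fin.ext h])
      · exact hne (by rw [Fin.ext hij])
    have h3 : ((i : ℕ) : ℝ) ≤ ((i' : ℕ) : ℝ) + 1 := by linarith
    have h4 : ((i' : ℕ) : ℝ) ≤ ((i : ℕ) : ℝ) + 1 := by linarith
    have h5 : (i : ℕ) ≤ i' + 1 := by exact_mod_cast h3
    have h6 : (i' : ℕ) ≤ i + 1 := by exact_mod_cast h4
    rcases lt_or_gt_of_ne hii with hlt | hlt
    · have e1 : (i' : ℕ) = i + 1 := by omega
      have e2 : (i' : ℕ) = j := by omega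
      have e3 : ((i' : ℕ) : ℝ) = ((i : ℕ) : ℝ) + 1 := by exact_mod_cast e1
      have hz1 : z = pos K (.v i') := eq_of_data (by simp only [pos]; exact h1)
        (by simp only [pos]; linarith)
      exact ⟨Or.inr (by rw [hz1, Fin.ext e2]), Or.inl hz1⟩
    · have e1 : (i : ℕ) = i' + 1 := by omega
      have e2 : (i : ℕ) = j' := by omega
      have e3 : ((i : ℕ) : ℝ) = ((i' : ℕ) : ℝ) + 1 := by exact_mod_cast e1
      have hz1 : z = pos K (.v i) := eq_of_data (by simp only [pos]; exact h1)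
        (by simp only [pos]; linarith)
      exact ⟨Or.inl hz1, Or.inr (by rw [hz1, Fin.ext e2])⟩
  · -- mid, right
    have hu : u' = 0 := zero_of_mul (wB_pos y') (by linarith)
    rw [hu] at h2'
    have hz1 : z = pos K (.v j') := eq_of_data (by simp only [pos]; exact h1)
      (by simp only [pos]; linarith)
    have h3 : ((i : ℕ) : ℝ) ≤ ((j' : ℕ) : ℝ) := by linarith
    have h4 : ((j' : ℕ) : ℝ) ≤ ((i : ℕ) : ℝ) + 1 := by linarith
    have h5 : (i : ℕ) ≤ j' := by exact_mod_cast h3
    have h6 : (j' : ℕ) ≤ i + 1 := by exact_mod_cast h4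
    refine ⟨?_, Or.inl hz1⟩
    by_cases h7 : (j' : ℕ) = i
    · left; rw [hz1, Fin.ext h7]
    · right
      have h8 : (j' : ℕ) = j := by omega
      rw [hz1, Fin.ext h8]
  · -- right, left
    have hw := wA_pos x'
    have hw' := wB_pos y
    have m1 : 0 ≤ (2 * ((K.hiA x' : ℝ) - K.loA x') + 1) * u' := mul_nonneg hw.le hu0'
    have m2 : 0 ≤ (2 * (-(K.loB y : ℝ) - -(K.hiB y : ℝ)) + 1) * u := mul_nonneg hw'.le hu0
    have hu : u' = 0 := zero_of_mul hw (by linarith)
    have hu' : u = 0 := zero_of_mul hw' (by linarith)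
    rw [hu] at h1' h2'
    rw [hu'] at h1 h2
    exact ⟨Or.inl (eq_of_data (by simp only [pos]; linarith) (by simp only [pos]; linarith)),
      Or.inr (eq_of_data (by simp only [pos]; linarith) (by simp only [pos]; linarith))⟩
  · -- right, mid
    have hu : u = 0 := zero_of_mul (wB_pos y) (by linarith)
    rw [hu] at h2
    have hz1 : z = pos K (.v j) := eq_of_data (by simp only [pos]; exact h1')
      (by simp only [pos]; linarith)
    have h3 : ((i' : ℕ) : ℝ) ≤ ((j : ℕ) : ℝ) := by linarith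
    have h4 : ((j : ℕ) : ℝ) ≤ ((i' : ℕ) : ℝ) + 1 := by linarith
    have h5 : (i' : ℕ) ≤ j := by exact_mod_cast h3
    have h6 : (j : ℕ) ≤ i' + 1 := by exact_mod_cast h4
    refine ⟨Or.inl hz1, ?_⟩
    by_cases h7 : (j : ℕ) = i'
    · left; rw [hz1, Fin.ext h7]
    · right
      have h8 : (j : ℕ) = j' := by omega
      rw [hz1, Fin.ext h8]
  · -- right, right
    by_cases hx : y = y'
    · subst hx
      have hjj : j ≠ j' := by
        rcases hne with hne | hne
        · exact fun h => hne (by rw [h])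
        · exact absurd rfl hne
      have hee : e ≠ e' := by
        intro h
        apply hjj
        apply Fin.ext
        have : ((j : ℕ) : ℝ) = ((j' : ℕ) : ℝ) := by linarith
        exact_mod_cast this
      have huu : u = 1 ∧ u' = 1 := by
        rcases he with ⟨he, hc⟩ | ⟨he, hc⟩ <;> rcases he' with ⟨he', hc'⟩ | ⟨he', hc'⟩
        · exact absurd (he.trans he'.symm) hee
        · rw [he, hc] at h2
          rw [he', hc'] at h2'
          exact side_same (ltB y) (h1.symm.trans h1') (h2.symm.trans h2')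
        · rw [he, hc] at h2
          rw [he', hc'] at h2'
          exact (side_same (ltB y) (h1'.symm.trans h1) (h2'.symm.trans h2)).symm
        · exact absurd (he.trans he'.symm) hee
      have hz1 : z = pos K (.b y) := by
        refine eq_of_data ?_ ?_
        · rw [huu.1] at h1
          simp only [pos]; linarith
        · rw [huu.1] at h2
          simp only [pos]
          rcases he with ⟨he, hc⟩ | ⟨he, hc⟩
          · rw [he, hc] at h2; linarith
          · rw [he, hc] at h2; linarith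
      exact ⟨Or.inr hz1, Or.inr hz1⟩
    · exact (side_disjoint (ltB y) (ltB y') he he' (lamB' hx) hu0 hu1 hu0' hu1'
        (h1.symm.trans h1') (h2.symm.trans h2')).elim

/-! ### The concrete family -/

/-- Lower block of ring `r`. -/
def Db (n r : ℕ) : ℕ := if r < n then 3 * r else 3 * (r - n) + 1

/-- Upper block of ring `r`. -/
def Cb (n r : ℕ) : ℕ := if r < n then 4 * n + 2 - r else 3 * (r - n) + 2

/-- Segment of a block. -/
def sg (n b : ℕ) : ℕ := min ((b + 1) / 3) (n + 1)

theorem sg_mono (n : ℕ) : Monotone (sg n) := by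
  intro a b h
  unfold sg
  exact min_le_min_right _ (Nat.div_le_div_right (by omega))

theorem blk_lt {s b o b' o' : ℕ} (ho : o ≤ s) (ho' : o' ≤ s) :
    b * (s + 1) + o < b' * (s + 1) + o' ↔ b < b' ∨ (b = b' ∧ o < o') := by
  constructor
  · intro h
    rcases lt_trichotomy b b' with h1 | h1 | h1
    · exact Or.inl h1
    · subst h1
      right
      exact ⟨rfl, by omega⟩
    · exfalso
      have : (b' + 1) * (s + 1) ≤ b * (s + 1) := Nat.mul_le_mul_right _ h1
      have e : (b' + 1) * (s + 1) = b' * (s + 1) + (s + 1) := by ring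
      omega
  · rintro (h1 | ⟨rfl, h1⟩)
    · have : (b + 1) * (s + 1) ≤ b' * (s + 1) := Nat.mul_le_mul_right _ h1
      have e : (b + 1) * (s + 1) = b * (s + 1) + (s + 1) := by ring
      omega
    · omega

theorem blk_le {s b o b' o' : ℕ} (ho : o ≤ s) (ho' : o' ≤ s) :
    b * (s + 1) + o ≤ b' * (s + 1) + o' ↔ b < b' ∨ (b = b' ∧ o ≤ o') := by
  rw [← not_lt, blk_lt ho' ho]
  constructor
  · intro h
    rcases lt_trichotomy b b' with h1 | h1 | h1
    · exact Or.inl h1
    · right; refine ⟨h1, ?_⟩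
      by_contra h2
      exact h (Or.inr ⟨h1.symm, by omega⟩)
    · exact absurd (Or.inl h1) h
  · rintro (h1 | ⟨h1, h2⟩) (h3 | ⟨h3, h4⟩) <;> omega

theorem blk_div {s b o : ℕ} (ho : o ≤ s) : (b * (s + 1) + o) / (s + 1) = b := by
  rw [Nat.add_comm, Nat.add_mul_div_right _ _ (Nat.succ_pos s), Nat.div_eq_of_lt (by omega)]
  omega

theorem Db_lt_Cb {n r : ℕ} (hr : r < 2 * n + 1) : Db n r < Cb n r := by
  unfold Db Cb
  split_ifs <;> omega

theorem Cb_lt {n r : ℕ} (hr : r < 2 * n + 1) : Cb n r < 4 * n + 3 := by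
  unfold Cb
  split_ifs <;> omega

theorem blk_lam {n r r' : ℕ} (hr : r < 2 * n + 1) (hr' : r' < 2 * n + 1) (h : r ≠ r') :
    Cb n r < Db n r' ∨ Cb n r' < Db n r ∨ (Db n r < Db n r' ∧ Cb n r' < Cb n r) ∨
      (Db n r' < Db n r ∧ Cb n r < Cb n r') := by
  unfold Cb Db
  split_ifs <;> omega

/-- The book of the construction. -/
def bk (n s : ℕ) : Book where
  N := (4 * n + 3) * (s + 1)
  seg p := sg n (p / (s + 1))
  A := Fin (2 * n + 1) × Fin s
  B := Fin (2 * n + 1) × Fin s
  loA x := Db n x.1 * (s + 1) + (s - x.2)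
  hiA x := Cb n x.1 * (s + 1) + (x.2 + 1)
  loB x := Db n x.1 * (s + 1) + (s - 1 - x.2)
  hiB x := Cb n x.1 * (s + 1) + x.2
  seg_mono := fun _ _ h => sg_mono n (Nat.div_le_div_right h)
  loA_lt := by
    rintro ⟨r, i⟩
    have := i.2
    exact (blk_lt (by simp only; omega) (by simp only; omega)).2 (Or.inl (Db_lt_Cb r.2))
  hiA_lt := by
    rintro ⟨r, i⟩
    have := i.2
    have h : Cb n r * (s + 1) + (i + 1) < (4 * n + 3) * (s + 1) + 0 :=
      (blk_lt (by omega) (by omega)).2 (Or.inl (Cb_lt r.2))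
    simpa using h
  loB_lt := by
    rintro ⟨r, i⟩
    have := i.2
    exact (blk_lt (by simp only; omega) (by simp only; omega)).2 (Or.inl (Db_lt_Cb r.2))
  hiB_lt := by
    rintro ⟨r, i⟩
    have := i.2
    have h : Cb n r * (s + 1) + i < (4 * n + 3) * (s + 1) + 0 :=
      (blk_lt (by omega) (by omega)).2 (Or.inl (Cb_lt r.2))
    simpa using h
  lamA := by
    rintro ⟨r, i⟩ ⟨r', i'⟩ hne
    have hi := i.2
    have hi' := i'.2
    simp only
    rw [blk_lt (by omega) (by omega), blk_lt (by omega) (by omega), blk_lt (by omega) (by omega),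
      blk_lt (by omega) (by omega), blk_lt (by omega) (by omega), blk_lt (by omega) (by omega)]
    by_cases hr : r = r'
    · subst hr
      have : (i : ℕ) ≠ i' := fun h => hne (by rw [Fin.ext h])
      omega
    · have hr' : (r : ℕ) ≠ r' := fun h => hr (Fin.ext h)
      have := blk_lam r.2 r'.2 hr'
      omega
  lamB := by
    rintro ⟨r, i⟩ ⟨r', i'⟩ hne
    have hi := i.2
    have hi' := i'.2
    simp only
    rw [blk_lt (by omega) (by omega), blk_lt (by omega) (by omega), blk_lt (by omega) (by omega),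
      blk_lt (by omega) (by omega), blk_lt (by omega) (by omega), blk_lt (by omega) (by omega)]
    by_cases hr : r = r'
    · subst hr
      have : (i : ℕ) ≠ i' := fun h => hne (by rw [Fin.ext h])
      omega
    · have hr' : (r : ℕ) ≠ r' := fun h => hr (Fin.ext h)
      have := blk_lam r.2 r'.2 hr'
      omega

theorem rc_iff {n s b o b' o' : ℕ} (ho : o ≤ s) (ho' : o' ≤ s) :
    Rc (bk n s) (b * (s + 1) + o) (b' * (s + 1) + o') ↔
      (b < b' ∧ sg n b = sg n b') ∨ (b = b' ∧ o ≤ o') := by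
  unfold Rc
  rw [blk_le ho ho']
  have e1 : (bk n s).seg (b * (s + 1) + o) = sg n b := by
    show sg n ((b * (s + 1) + o) / (s + 1)) = sg n b
    rw [blk_div ho]
  have e2 : (bk n s).seg (b' * (s + 1) + o') = sg n b' := by
    show sg n ((b' * (s + 1) + o') / (s + 1)) = sg n b'
    rw [blk_div ho']
  rw [e1, e2]
  constructor
  · rintro ⟨h1 | h1, h2⟩
    · exact Or.inl ⟨h1, h2⟩
    · exact Or.inr h1
  · rintro (⟨h1, h2⟩ | ⟨rfl, h1⟩)
    · exact ⟨Or.inl h1, h2⟩
    · exact ⟨Or.inr ⟨rfl, h1⟩, rfl⟩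

/-- The relation between different rings. -/
def Er (n r r' : ℕ) : Prop :=
  (Db n r < Db n r' ∧ sg n (Db n r) = sg n (Db n r')) ∨
  (Db n r < Cb n r' ∧ sg n (Db n r) = sg n (Cb n r')) ∨
  (Cb n r < Db n r' ∧ sg n (Cb n r) = sg n (Db n r')) ∨
  (Cb n r < Cb n r' ∧ sg n (Cb n r) = sg n (Cb n r'))

theorem blk_ne {n r r' : ℕ} (hr : r < 2 * n + 1) (hr' : r' < 2 * n + 1) (h : r ≠ r') :
    Db n r ≠ Db n r' ∧ Db n r ≠ Cb n r' ∧ Cb n r ≠ Db n r' ∧ Cb n r ≠ Cb n r' := by
  have h1 := Db_lt_Cb hr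
  have h2 := Db_lt_Cb hr'
  rcases blk_lam hr hr' h with h3 | h3 | h3 | h3 <;> omega

theorem cross_iff {n s : ℕ} {r r' : Fin (2 * n + 1)} (h : r ≠ r') (x y : Fin s) :
    ((Pt.a (r, x) : Pt (bk n s)) ≤ Pt.b (r', y)) ↔ Er n r r' := by
  have hx := x.2
  have hy := y.2
  have hne := blk_ne r.2 r'.2 (fun h' => h (Fin.ext h'))
  show (Rc (bk n s) (Db n r * (s + 1) + (s - x)) (Db n r' * (s + 1) + (s - 1 - y)) ∨
    Rc (bk n s) (Db n r * (s + 1) + (s - x)) (Cb n r' * (s + 1) + y) ∨
    Rc (bk n s) (Cb n r * (s + 1) + (x + 1)) (Db n r' * (s + 1) + (s - 1 - y)) ∨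
    Rc (bk n s) (Cb n r * (s + 1) + (x + 1)) (Cb n r' * (s + 1) + y)) ↔ _
  rw [rc_iff (by omega) (by omega), rc_iff (by omega) (by omega), rc_iff (by omega) (by omega),
    rc_iff (by omega) (by omega)]
  unfold Er
  simp only [hne.1, hne.2.1, hne.2.2.1, hne.2.2.2, false_and, or_false]

theorem same_iff {n s : ℕ} {r : Fin (2 * n + 1)} (x y : Fin s) :
    ((Pt.a (r, x) : Pt (bk n s)) ≤ Pt.b (r, y)) ↔ x ≠ y := by
  have hx := x.2
  have hy := y.2
  have hr := r.2
  have h1 := Db_lt_Cb hr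
  have h2 : sg n (Db n r) ≠ sg n (Cb n r) := by
    unfold sg Db Cb
    split_ifs <;> omega
  show (Rc (bk n s) (Db n r * (s + 1) + (s - x)) (Db n r * (s + 1) + (s - 1 - y)) ∨
    Rc (bk n s) (Db n r * (s + 1) + (s - x)) (Cb n r * (s + 1) + y) ∨
    Rc (bk n s) (Cb n r * (s + 1) + (x + 1)) (Db n r * (s + 1) + (s - 1 - y)) ∨
    Rc (bk n s) (Cb n r * (s + 1) + (x + 1)) (Cb n r * (s + 1) + y)) ↔ _
  rw [rc_iff (by omega) (by omega), rc_iff (by omega) (by omega), rc_iff (by omega) (by omega),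
    rc_iff (by omega) (by omega)]
  constructor
  · rintro h rfl
    omega
  · intro h
    have : (x : ℕ) ≠ y := fun h' => h (Fin.ext h')
    omega

theorem no_digon {n r r' : ℕ} (hr : r < 2 * n + 1) (hr' : r' < 2 * n + 1)
    (h1 : Er n r r') (h2 : Er n r' r) : False := by
  unfold Er sg Db Cb at h1 h2
  split_ifs at h1 h2 <;> omega

/-! ### Linear extensions reverse few pairs -/

/-- Spine point at offset `o` of block `b`. -/
def sp (n s b o : ℕ) (hb : b < 4 * n + 3) (ho : o ≤ s) : Pt (bk n s) :=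
  Pt.v ⟨b * (s + 1) + o, by
    have h : b * (s + 1) + o < (4 * n + 3) * (s + 1) + 0 :=
      (blk_lt ho (Nat.zero_le s)).2 (Or.inl hb)
    show b * (s + 1) + o < (4 * n + 3) * (s + 1)
    simpa using h⟩

theorem sp_le {n s b o b' o' : ℕ} {hb : b < 4 * n + 3} {ho : o ≤ s} {hb' : b' < 4 * n + 3}
    {ho' : o' ≤ s} (h : (b < b' ∧ sg n b = sg n b') ∨ (b = b' ∧ o ≤ o')) :
    sp n s b o hb ho ≤ sp n s b' o' hb' ho' :=
  (rc_iff ho ho').2 h

theorem Db_lt {n r : ℕ} (hr : r < 2 * n + 1) : Db n r < 4 * n + 3 :=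
  (Db_lt_Cb hr).trans (Cb_lt hr)

theorem a_le_D {n s : ℕ} (r : Fin (2 * n + 1)) (x : Fin s) :
    (Pt.a (r, x) : Pt (bk n s)) ≤ sp n s (Db n r) s (Db_lt r.2) le_rfl :=
  Or.inl ((rc_iff (by omega) le_rfl).2 (Or.inr ⟨rfl, by omega⟩))

theorem a_le_C {n s : ℕ} (r : Fin (2 * n + 1)) (x : Fin s) :
    (Pt.a (r, x) : Pt (bk n s)) ≤ sp n s (Cb n r) s (Cb_lt r.2) le_rfl :=
  Or.inr ((rc_iff (by have := x.2; omega) le_rfl).2 (Or.inr ⟨rfl, by have := x.2; omega⟩))

theorem D_le_b {n s : ℕ} (r : Fin (2 * n + 1)) (x : Fin s) :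
    sp n s (Db n r) 0 (Db_lt r.2) (Nat.zero_le s) ≤ (Pt.b (r, x) : Pt (bk n s)) :=
  Or.inl ((rc_iff (Nat.zero_le s) (by have := x.2; omega)).2 (Or.inr ⟨rfl, Nat.zero_le _⟩))

theorem C_le_b {n s : ℕ} (r : Fin (2 * n + 1)) (x : Fin s) :
    sp n s (Cb n r) 0 (Cb_lt r.2) (Nat.zero_le s) ≤ (Pt.b (r, x) : Pt (bk n s)) :=
  Or.inr ((rc_iff (Nat.zero_le s) (by have := x.2; omega)).2 (Or.inr ⟨rfl, Nat.zero_le _⟩))

section Ext

variable {n s : ℕ} (f : Pt (bk n s) → ℕ)

/-- Ring `r` has a reversed pair. -/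
def Act (r : ℕ) : Prop :=
  ∃ (h : r < 2 * n + 1) (x : Fin s), f (Pt.b (⟨r, h⟩, x)) < f (Pt.a (⟨r, h⟩, x))

open Classical in
/-- Indicator of `Act`. -/
noncomputable def ci (r : ℕ) : ℕ := if Act f r then 1 else 0

/-- The height of a spine point. -/
noncomputable def g (b o : ℕ) : ℕ :=
  if h : b < 4 * n + 3 ∧ o ≤ s then f (sp n s b o h.1 h.2) else 0

variable {f}

theorem g_eq {b o : ℕ} (hb : b < 4 * n + 3) (ho : o ≤ s) : g f b o = f (sp n s b o hb ho) := by
  unfold g
  rw [dif_pos ⟨hb, ho⟩]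

theorem act_data (hf : StrictMono f) {r : ℕ} (h : Act f r) :
    g f (Db n r) 0 < g f (Db n r) s ∧ g f (Db n r) 0 < g f (Cb n r) s ∧
    g f (Cb n r) 0 < g f (Db n r) s ∧ g f (Cb n r) 0 < g f (Cb n r) s := by
  obtain ⟨hr, x, hx⟩ := h
  have h1 := hf.monotone (a_le_D (n := n) ⟨r, hr⟩ x)
  have h2 := hf.monotone (a_le_C (n := n) ⟨r, hr⟩ x)
  have h3 := hf.monotone (D_le_b (n := n) ⟨r, hr⟩ x)
  have h4 := hf.monotone (C_le_b (n := n) ⟨r, hr⟩ x)
  rw [g_eq (Db_lt hr) (Nat.zero_le s), g_eq (Db_lt hr) le_rfl, g_eq (Cb_lt hr) le_rfl,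
    g_eq (Cb_lt hr) (Nat.zero_le s)]
  simp only at h1 h2 h3 h4
  omega

theorem g_le (hf : StrictMono f) {b o b' o' : ℕ} (hb : b < 4 * n + 3) (ho : o ≤ s)
    (hb' : b' < 4 * n + 3) (ho' : o' ≤ s)
    (h : (b < b' ∧ sg n b = sg n b') ∨ (b = b' ∧ o ≤ o')) : g f b o ≤ g f b' o' := by
  rw [g_eq hb ho, g_eq hb' ho']
  exact hf.monotone (sp_le h)

/-- Bottom block of the `k`-th nested structure. -/
def Bt (n k : ℕ) : ℕ := if k < n then 3 * k else 3 * n + 1

/-- Top block of the `k`-th nested structure. -/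
def Tp (n k : ℕ) : ℕ := if k < n then 4 * n + 2 - k else 3 * n + 2

/-- The sum of indicators from level `k` on. -/
noncomputable def Sk (f : Pt (bk n s) → ℕ) (k : ℕ) : ℕ :=
  ∑ j ∈ Finset.Ico k n, (ci f j + ci f (n + j)) + ci f (2 * n)

theorem ci_le (r : ℕ) : ci f r ≤ 1 := by
  unfold ci; split_ifs <;> simp

theorem ci_zero {r : ℕ} (h : ¬ Act f r) : ci f r = 0 := by
  unfold ci; rw [if_neg h]

theorem main_count (hf : StrictMono f) (t : ℕ) : ∀ k, k + t = n →
    Sk f k ≤ t + 1 ∧ (¬ g f (Bt n k) 0 < g f (Tp n k) s → Sk f k ≤ t) := by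
  induction t with
  | zero =>
    intro k hk
    have hk' : k = n := by omega
    subst hk'
    have hS : Sk f k = ci f (2 * k) := by
      unfold Sk; simp
    rw [hS]
    refine ⟨by simpa using ci_le _, ?_⟩
    intro h
    rw [ci_zero]
    intro hact
    apply h
    have h1 := (act_data hf hact).2.1
    have e1 : Db k (2 * k) = Bt k k := by
      unfold Db Bt
      rw [if_neg (by omega), if_neg (by omega)]; omega
    have e2 : Cb k (2 * k) = Tp k k := by
      unfold Cb Tp
      rw [if_neg (by omega), if_neg (by omega)]; omega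
    rwa [e1, e2] at h1
  | succ t ih =>
    intro k hk
    obtain ⟨ih1, ih2⟩ := ih (k + 1) (by omega)
    have hkn : k < n := by omega
    have hS : Sk f k = ci f k + ci f (n + k) + Sk f (k + 1) := by
      unfold Sk
      rw [Finset.sum_eq_sum_Ico_succ_bot hkn]
      ring
    have cI := ci_le (f := f) k
    have cL := ci_le (f := f) (n + k)
    -- blocks
    have dI : Db n k = 3 * k := by unfold Db; rw [if_pos hkn]
    have cIe : Cb n k = 4 * n + 2 - k := by unfold Cb; rw [if_pos hkn]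
    have dL : Db n (n + k) = 3 * k + 1 := by
      unfold Db; rw [if_neg (by omega)]; congr 2; omega
    have cLe : Cb n (n + k) = 3 * k + 2 := by
      unfold Cb; rw [if_neg (by omega)]; congr 2; omega
    have bk' : Bt n k = 3 * k := by unfold Bt; rw [if_pos hkn]
    have tk' : Tp n k = 4 * n + 2 - k := by unfold Tp; rw [if_pos hkn]
    have hz := Nat.zero_le s
    -- chain inequalities
    have q1 : g f (3 * k) s ≤ g f (3 * k + 1) 0 :=
      g_le hf (by omega) le_rfl (by omega) hz (Or.inl ⟨by omega, by unfold sg; omega⟩)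
    have q1' : g f (3 * k) 0 ≤ g f (3 * k + 1) 0 :=
      g_le hf (by omega) hz (by omega) hz (Or.inl ⟨by omega, by unfold sg; omega⟩)
    have q2 : g f (3 * k + 2) s ≤ g f (Bt n (k + 1)) 0 := by
      unfold Bt
      split_ifs
      · exact g_le hf (by omega) le_rfl (by omega) hz (Or.inl ⟨by omega, by unfold sg; omega⟩)
      · exact g_le hf (by omega) le_rfl (by omega) hz (Or.inl ⟨by omega, by unfold sg; omega⟩)
    have q3 : g f (Tp n (k + 1)) s ≤ g f (4 * n + 2 - k) 0 := by
      unfold Tp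
      split_ifs
      · exact g_le hf (by omega) le_rfl (by omega) hz (Or.inl ⟨by omega, by unfold sg; omega⟩)
      · exact g_le hf (by omega) le_rfl (by omega) hz (Or.inl ⟨by omega, by unfold sg; omega⟩)
    have q4 : g f (4 * n + 2 - k) 0 ≤ g f (4 * n + 2 - k) s :=
      g_le hf (by omega) hz (by omega) le_rfl (Or.inr ⟨rfl, hz⟩)
    rw [bk', tk', hS]
    -- consequences of activity
    have aI : Act f k → g f (3 * k) 0 < g f (4 * n + 2 - k) s ∧
        g f (4 * n + 2 - k) 0 < g f (3 * k) s := by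
      intro h
      have := act_data hf h
      rw [dI, cIe] at this
      exact ⟨this.2.1, this.2.2.1⟩
    have aL : Act f (n + k) → g f (3 * k + 1) 0 < g f (3 * k + 2) s := by
      intro h
      have := act_data hf h
      rw [dL, cLe] at this
      exact this.2.1
    by_cases hI : Act f k
    · have hI' := aI hI
      refine ⟨?_, fun h => absurd hI'.1 h⟩
      by_cases hL : Act f (n + k)
      · have hL' := aL hL
        have hth : ¬ g f (Bt n (k + 1)) 0 < g f (Tp n (k + 1)) s := by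
          intro h
          omega
        have := ih2 hth
        omega
      · rw [ci_zero hL]
        omega
    · rw [ci_zero hI]
      refine ⟨by omega, ?_⟩
      intro hth
      by_cases hL : Act f (n + k)
      · have hL' := aL hL
        have hth' : ¬ g f (Bt n (k + 1)) 0 < g f (Tp n (k + 1)) s := by
          intro h
          apply hth
          omega
        have := ih2 hth'
        omega
      · rw [ci_zero hL]
        omega

theorem sum_ci (hf : StrictMono f) : ∑ r ∈ Finset.range (2 * n + 1), ci f r ≤ n + 1 := by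
  have h := (main_count hf n 0 (by omega)).1
  have e : ∑ r ∈ Finset.range (2 * n + 1), ci f r = Sk f 0 := by
    unfold Sk
    rw [Finset.sum_range_succ, two_mul, Finset.sum_range_add, Finset.sum_add_distrib]
    simp
  rw [e]
  exact h

open Classical in
theorem rev_card (hf : StrictMono f) :
    (Finset.univ.filter (fun z : Fin (2 * n + 1) × Fin s => f (Pt.b z) < f (Pt.a z))).card ≤
      n + 1 := by
  refine le_trans ?_ (sum_ci hf)
  have h1 : (Finset.univ.filter (fun z : Fin (2 * n + 1) × Fin s =>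
      f (Pt.b z) < f (Pt.a z))).card ≤
      ∑ r : Fin (2 * n + 1), ci f r := by
    rw [Finset.card_eq_sum_card_fiberwise (f := fun z => z.1) (t := Finset.univ)
      (fun _ _ => Finset.mem_coe.2 (Finset.mem_univ _))]
    apply Finset.sum_le_sum
    intro r _
    by_cases hr : Act f r
    · have hc : ci f r = 1 := by unfold ci; rw [if_pos hr]
      rw [hc, Finset.card_le_one]
      rintro ⟨r1, x⟩ h1 ⟨r2, y⟩ h2
      simp only [Finset.mem_filter, Finset.mem_univ, true_and] at h1 h2
      obtain ⟨h1, rfl⟩ := h1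
      obtain ⟨h2, h3⟩ := h2
      subst h3
      by_contra hne
      have hxy : x ≠ y := fun h => hne (by rw [h])
      have k1 := hf.monotone ((same_iff (n := n) (r := r2) x y).2 hxy)
      have k2 := hf.monotone ((same_iff (n := n) (r := r2) y x).2 hxy.symm)
      omega
    · rw [ci_zero hr]
      rw [Nat.le_zero, Finset.card_eq_zero, Finset.eq_empty_iff_forall_notMem]
      rintro ⟨r1, x⟩ h1
      simp only [Finset.mem_filter, Finset.mem_univ, true_and] at h1
      obtain ⟨h1, rfl⟩ := h1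
      exact hr ⟨r1.2, x, h1⟩
  refine h1.trans (le_of_eq ?_)
  rw [Finset.sum_range]

end Ext

open Classical in
theorem dim_bound {n s k : ℕ} (f : Fin k → Pt (bk n s) → ℕ) (hm : ∀ i, StrictMono (f i))
    (hr : ∀ x y : Pt (bk n s), (x ≤ y ↔ ∀ i, f i x ≤ f i y)) :
    (2 * n + 1) * s ≤ (n + 1) * k := by
  have hcov : (Finset.univ : Finset (Fin (2 * n + 1) × Fin s)) ⊆
      Finset.univ.biUnion (fun i : Fin k => Finset.univ.filter
        (fun z : Fin (2 * n + 1) × Fin s => f i (Pt.b z) < f i (Pt.a z))) := by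
    rintro ⟨r, x⟩ _
    have hn : ¬ ((Pt.a (r, x) : Pt (bk n s)) ≤ Pt.b (r, x)) := by
      rw [same_iff]
      simp
    rw [hr] at hn
    push Not at hn
    obtain ⟨i, hi⟩ := hn
    simp only [Finset.mem_biUnion, Finset.mem_filter, Finset.mem_univ, true_and]
    exact ⟨i, hi⟩
  have h1 := Finset.card_le_card hcov
  have h2 := h1.trans Finset.card_biUnion_le
  have h3 : ∑ i : Fin k, (Finset.univ.filter
        (fun z : Fin (2 * n + 1) × Fin s => f i (Pt.b z) < f i (Pt.a z))).card ≤
        ∑ _i : Fin k, (n + 1) := Finset.sum_le_sum (fun i _ => rev_card (hm i))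
  have h4 := h2.trans h3
  simp only [Finset.card_univ, Fintype.card_prod, Fintype.card_fin, Finset.sum_const,
    smul_eq_mul] at h4
  rw [Nat.mul_comm (n + 1) k]
  exact h4

/-! ### Standard examples are small -/

theorem sg_lt (n b : ℕ) : sg n b < n + 2 := by unfold sg; omega

/-- The palette. -/
abbrev Pal (n s : ℕ) : Type :=
  Fin (n + 2) ⊕ Fin (n + 2) ⊕ (Fin (2 * n + 1) × Fin (2 * n + 1)) ⊕ Fin s

/-- The colour of an index. -/
def Col (n s : ℕ) (p q : Pt (bk n s)) : Pal n s → Prop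
  | Sum.inl t => ∃ v, p = Pt.v v ∧ (bk n s).seg v = t
  | Sum.inr (Sum.inl t) => ∃ v, q = Pt.v v ∧ (bk n s).seg v = t
  | Sum.inr (Sum.inr (Sum.inl w)) =>
      w.1 ≠ w.2 ∧ ∃ x y, p = Pt.a (w.1, x) ∧ q = Pt.b (w.2, y)
  | Sum.inr (Sum.inr (Sum.inr x)) => ∃ r y, p = Pt.a (r, x) ∧ q = Pt.b (r, y)

theorem se_bound {n s d : ℕ} (a b : Fin d → Pt (bk n s))
    (hab : ∀ i j, (a i ≤ b j ↔ i ≠ j)) (haa : ∀ i j, (a i ≤ a j ↔ i = j))
    (hbb : ∀ i j, (b i ≤ b j ↔ i = j)) :
    d ≤ s + ((2 * n + 1) * (2 * n + 1) + 2 * (n + 2)) := by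
  by_cases hd : d < 3
  · omega
  push Not at hd
  have h3 : ∀ i : Fin d, ∃ j k : Fin d, i ≠ j ∧ i ≠ k ∧ j ≠ k := by
    intro i
    rcases Nat.lt_or_ge (i : ℕ) 1 with h | h
    · refine ⟨⟨1, by omega⟩, ⟨2, by omega⟩, ?_, ?_, ?_⟩ <;> intro h' <;>
        have := congrArg Fin.val h' <;> simp at this <;> omega
    · rcases Nat.lt_or_ge (i : ℕ) 2 with h' | h'
      · refine ⟨⟨0, by omega⟩, ⟨2, by omega⟩, ?_, ?_, ?_⟩ <;> intro h' <;>
          have := congrArg Fin.val h' <;> simp at this <;> omega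
      · refine ⟨⟨0, by omega⟩, ⟨1, by omega⟩, ?_, ?_, ?_⟩ <;> intro h' <;>
          have := congrArg Fin.val h' <;> simp at this <;> omega
  have hmaxB : ∀ (y : (bk n s).B) (p : Pt (bk n s)), Pt.b y ≤ p → p = Pt.b y := by
    intro y p h
    cases p with
    | a x => exact (h : False).elim
    | v j => exact (h : False).elim
    | b y' => have : y = y' := h
              rw [this]
  have hminA : ∀ (x : (bk n s).A) (p : Pt (bk n s)), p ≤ Pt.a x → p = Pt.a x := by
    intro x p h
    cases p with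
    | a x' => have : x' = x := h
              rw [this]
    | v j => exact (h : False).elim
    | b y' => exact (h : False).elim
  have hex : ∀ i, ∃ c, Col n s (a i) (b i) c := by
    intro i
    obtain ⟨j, k, hij, hik, hjk⟩ := h3 i
    rcases hai : a i with x | v | y
    · rcases hbi : b i with x' | v | y
      · exfalso
        have h1 := (hab j i).2 hij.symm
        have h2 := (hab k i).2 hik.symm
        rw [hbi] at h1 h2
        have h3 := hminA _ _ h1
        have h4 := hminA _ _ h2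
        exact hjk ((haa j k).1 (by rw [h3, h4]))
      · exact ⟨Sum.inr (Sum.inl ⟨_, sg_lt n _⟩), v, rfl, rfl⟩
      · obtain ⟨r, x⟩ := x
        obtain ⟨r', y⟩ := y
        by_cases hr : r = r'
        · subst hr
          exact ⟨Sum.inr (Sum.inr (Sum.inr x)), r, y, rfl, rfl⟩
        · exact ⟨Sum.inr (Sum.inr (Sum.inl (r, r'))), hr, x, y, rfl, rfl⟩
    · exact ⟨Sum.inl ⟨_, sg_lt n _⟩, v, rfl, rfl⟩
    · exfalso
      have h1 := (hab i j).2 hij
      have h2 := (hab i k).2 hik
      rw [hai] at h1 h2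
      have h3 := hmaxB _ _ h1
      have h4 := hmaxB _ _ h2
      exact hjk ((hbb j k).1 (by rw [h3, h4]))
  choose c hc using hex
  have hinj : Function.Injective c := by
    intro i j hij
    have hi := hc i
    have hj := hc j
    rw [← hij] at hj
    rcases hcc : c i with t | t | ⟨r, r'⟩ | x <;> rw [hcc] at hi hj
    · obtain ⟨v, hv, hv'⟩ := hi
      obtain ⟨w, hw, hw'⟩ := hj
      have hseg : (bk n s).seg v = (bk n s).seg w := by rw [hv', hw']
      rcases le_total (v : ℕ) w with h | h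
      · exact (haa i j).1 (by rw [hv, hw]; exact ⟨h, hseg⟩)
      · exact ((haa j i).1 (by rw [hv, hw]; exact ⟨h, hseg.symm⟩)).symm
    · obtain ⟨v, hv, hv'⟩ := hi
      obtain ⟨w, hw, hw'⟩ := hj
      have hseg : (bk n s).seg v = (bk n s).seg w := by rw [hv', hw']
      rcases le_total (v : ℕ) w with h | h
      · exact (hbb i j).1 (by rw [hv, hw]; exact ⟨h, hseg⟩)
      · exact ((hbb j i).1 (by rw [hv, hw]; exact ⟨h, hseg.symm⟩)).symm
    · obtain ⟨hne, x, y, hx, hy⟩ := hi
      obtain ⟨-, x', y', hx', hy'⟩ := hj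
      by_contra hne'
      have h1 := (hab i j).2 hne'
      rw [hx, hy'] at h1
      have h2 : a i ≤ b i := by
        rw [hx, hy]
        exact (cross_iff hne _ _).2 ((cross_iff hne _ _).1 h1)
      exact (hab i i).1 h2 rfl
    · obtain ⟨r, y, hx, hy⟩ := hi
      obtain ⟨r', y', hx', hy'⟩ := hj
      by_cases hr : r = r'
      · subst hr
        exact (haa i j).1 (by rw [hx, hx'])
      · by_contra hne'
        have h1 := (hab i j).2 hne'
        have h2 := (hab j i).2 (fun h => hne' h.symm)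
        rw [hx, hy'] at h1
        rw [hx', hy] at h2
        exact no_digon r.2 r'.2 ((cross_iff hr _ _).1 h1)
          ((cross_iff (fun h => hr h.symm) _ _).1 h2)
  have hcard := Fintype.card_le_of_injective c hinj
  simp only [Fintype.card_fin, Fintype.card_sum, Fintype.card_prod] at hcard
  omega

/-- For all `n` and all `d ≥ (2 n + 1)² + 2 (n + 2) + 1` there is a finite poset with an upward
straight-line crossing-free Hasse diagram that contains no standard example `S_d` and all of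
whose realizers have at least `(2 - 1 / (n + 1)) (d - (2 n + 1)² - 2 (n + 2) - 1)` members. -/
theorem result (n d : ℕ) (hd : (2 * n + 1) * (2 * n + 1) + 2 * (n + 2) + 1 ≤ d) :
    ∃ (P : Type) (_ : Fintype P) (_ : PartialOrder P),
      (∃ p : P → ℝ × ℝ, Function.Injective p ∧
        (∀ x y : P, x ⋖ y → (p x).2 < (p y).2) ∧
        (∀ x y z : P, x ⋖ y → p z ∈ segment ℝ (p x) (p y) → z = x ∨ z = y) ∧
        (∀ x y u v : P, x ⋖ y → u ⋖ v → (x ≠ u ∨ y ≠ v) →
          ∀ q ∈ segment ℝ (p x) (p y), q ∈ segment ℝ (p u) (p v) →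
            (q = p x ∨ q = p y) ∧ (q = p u ∨ q = p v))) ∧
      (¬ ∃ a b : Fin d → P,
        (∀ i j, (a i ≤ b j ↔ i ≠ j)) ∧
        (∀ i j, (a i ≤ a j ↔ i = j)) ∧
        (∀ i j, (b i ≤ b j ↔ i = j)) ∧
        ∀ i j, ¬ b i ≤ a j) ∧
      ∀ (k : ℕ) (f : Fin k → P → ℕ),
        (∀ i, Function.Injective (f i)) → (∀ i, StrictMono (f i)) →
        (∀ x y : P, (x ≤ y ↔ ∀ i, f i x ≤ f i y)) →
        (2 * n + 1) * (d - ((2 * n + 1) * (2 * n + 1) + 2 * (n + 2) + 1)) ≤ (n + 1) * k := by
  set s : ℕ := d - ((2 * n + 1) * (2 * n + 1) + 2 * (n + 2) + 1) with hs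
  have : Fintype (bk n s).A := inferInstanceAs (Fintype (Fin (2 * n + 1) × Fin s))
  have : Fintype (bk n s).B := inferInstanceAs (Fintype (Fin (2 * n + 1) × Fin s))
  refine ⟨Pt (bk n s), Fintype.ofEquiv _ (ptEquiv (bk n s)), inferInstance,
    ⟨pos (bk n s), pos_inj _, fun x y h => pos_up h, fun x y z h hz => vertex_edge h hz,
      fun x y u v h h' hne q hq hq' => edge_edge h h' hne hq hq'⟩, ?_, ?_⟩
  · rintro ⟨a, b, h1, h2, h3, -⟩
    have := se_bound a b h1 h2 h3
    omega
  · intro k f _ hm hr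
    exact dim_bound f hm hr

end Pool.Agent.Results.MP_176cbc_co.PlanarLowerBound
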